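import Pool.Agent.T2H77.RG.Fin
import Pool.Agent.T2H77.RG.GU
import Pool.Agent.T2H77.RG.G2
import Pool.Agent.T2H77.RG.DK
import Pool.Agent.T2H77.RG.KE
import Pool.Agent.T2H77.RG.KS
import Pool.Agent.T2H77.RG.WR
import Pool.Agent.T2H77.RG.GL
import Pool.Agent.T2H77.RG.IV
import Pool.Agent.T2H77.RG.DE
import Pool.Agent.T2H77.RG.AD
import Pool.Agent.T2H77.RG.EN
import Pool.Agent.T2H77.RG.FR
import Pool.Agent.T2H77.RG.IX
import Pool.Agent.T2H77.RG.CN

/-!
# MP_1155ce_an: eigenvectors of periodic Jacobi matrices on the red-green tree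

For `r > g ≥ 2` and every Jacobi matrix `J` on `K_{r,g}`, every `ℓ²` eigenvector of the lift of `J`
to the universal cover vanishes at every green vertex. The left vertices of
`completeBipartiteGraph (Fin r) (Fin g)` are red, the right vertices are green.
-/

set_option autoImplicit false

namespace Pool.Agent.Results.MP_1155ce_an.GreenVanish

open Pool.Agent.T2H77.RG

theorem result : ∀ (r g : ℕ), 2 ≤ g → g < r →
    ∀ (V : Type) (C : Cover (completeBipartiteGraph (Fin r) (Fin g)) V)
      (J : Jacobi (completeBipartiteGraph (Fin r) (Fin g))) (lam : ℝ) (u : V → ℂ),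
      IsEigenvector C J lam u → ∀ x : V, (C.ty x).isRight = true → u x = 0 := by
  have hGU := pGU
  have hG2 := pG2 hGU
  have hDK := pDK hGU
  have hKS := pKS
  have hWR := pWR hG2
  have hGL := pGL hG2
  have hIV := pIV hKS
  have hDE := pDE hGU hKS
  have hAD := pAD hG2 hKS hWR
  have hEN := pEN hG2 hKS hGL
  have hFR := pFR hGU hG2 hKS hEN
  have hIX := pIX hDK hKS hIV hDE hAD hFR
  exact fin pKE hKS hIX pCN

end Pool.Agent.Results.MP_1155ce_an.GreenVanish
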